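import Mathlib
import Pool.Agent.Y58.HT.Stm4

/-!
# Project HT (helper58): matrices congruent to `1` modulo nilpotents generate a nilpotent group
-/

set_option autoImplicit false

universe u

namespace Pool.Agent.Y340.HT

open Matrix
open scoped MatrixGroups

section

variable {R : Type u} [CommRing R]

/-- The matrices congruent to `1` modulo the ideal `J`. -/
def KJ (J : Ideal R) : Subgroup (GL (Fin 2) R) :=
  (Matrix.GeneralLinearGroup.map (n := Fin 2) (Ideal.Quotient.mk J)).ker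

theorem mem_KJ (J : Ideal R) (g : GL (Fin 2) R) : g ∈ KJ J ↔
    ∀ i j, ((g : Matrix (Fin 2) (Fin 2) R) - 1) i j ∈ J := by
  have h1 : ∀ i j, ((1 : Matrix (Fin 2) (Fin 2) (R ⧸ J)) i j) =
      Ideal.Quotient.mk J ((1 : Matrix (Fin 2) (Fin 2) R) i j) := by
    intro i j
    rw [Matrix.one_apply, Matrix.one_apply]
    split_ifs
    · rw [map_one]
    · rw [map_zero]
  unfold KJ
  rw [MonoidHom.mem_ker]
  constructor
  · intro h i j
    rw [Matrix.sub_apply, ← Ideal.Quotient.eq, ← h1]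
    have h2 := congrArg (fun g : GL (Fin 2) (R ⧸ J) => (g : Matrix (Fin 2) (Fin 2) (R ⧸ J)) i j) h
    exact h2
  · intro h
    ext i j
    have h2 := h i j
    rw [Matrix.sub_apply, ← Ideal.Quotient.eq, ← h1] at h2
    exact h2

theorem mul_mem_aux {J₁ J₂ : Ideal R} {X Y : Matrix (Fin 2) (Fin 2) R}
    (hX : ∀ i j, X i j ∈ J₁) (hY : ∀ i j, Y i j ∈ J₂) : ∀ i j, (X * Y) i j ∈ J₁ * J₂ := by
  intro i j
  rw [Matrix.mul_apply]
  exact Ideal.sum_mem _ fun k _ => Ideal.mul_mem_mul (hX i k) (hY k j)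

theorem mul_mem_right {J : Ideal R} {X : Matrix (Fin 2) (Fin 2) R} (Y : Matrix (Fin 2) (Fin 2) R)
    (hX : ∀ i j, X i j ∈ J) : ∀ i j, (X * Y) i j ∈ J := by
  intro i j
  rw [Matrix.mul_apply]
  exact Ideal.sum_mem _ fun k _ => Ideal.mul_mem_right _ _ (hX i k)

theorem comm_mem {J₁ J₂ : Ideal R} {a b : GL (Fin 2) R} (ha : a ∈ KJ J₁) (hb : b ∈ KJ J₂) :
    a * b * a⁻¹ * b⁻¹ ∈ KJ (J₁ * J₂) := by
  rw [mem_KJ] at ha hb ⊢
  set A : Matrix (Fin 2) (Fin 2) R := (a : Matrix (Fin 2) (Fin 2) R) with hA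
  set B : Matrix (Fin 2) (Fin 2) R := (b : Matrix (Fin 2) (Fin 2) R) with hB
  set A' : Matrix (Fin 2) (Fin 2) R := ((a⁻¹ : GL (Fin 2) R) : Matrix (Fin 2) (Fin 2) R) with hA'
  set B' : Matrix (Fin 2) (Fin 2) R := ((b⁻¹ : GL (Fin 2) R) : Matrix (Fin 2) (Fin 2) R) with hB'
  have hAA : A * A' = 1 := by
    rw [hA, hA', ← Units.val_mul, mul_inv_cancel, Units.val_one]
  have hBB : B * B' = 1 := by
    rw [hB, hB', ← Units.val_mul, mul_inv_cancel, Units.val_one]
  have e1 : ((a * b * a⁻¹ * b⁻¹ : GL (Fin 2) R) : Matrix (Fin 2) (Fin 2) R) - 1 =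
      ((A - 1) * (B - 1) - (B - 1) * (A - 1)) * (A' * B') := by
    rw [Units.val_mul, Units.val_mul, Units.val_mul, ← hA, ← hB, ← hA', ← hB']
    have e2 : B * A * (A' * B') = 1 := by
      calc B * A * (A' * B') = B * (A * A') * B' := by simp only [mul_assoc]
        _ = 1 := by rw [hAA, mul_one, hBB]
    have e3 : (A - 1) * (B - 1) - (B - 1) * (A - 1) = A * B - B * A := by noncomm_ring
    rw [e3, sub_mul, e2]
    simp only [mul_assoc]
  rw [e1]
  refine mul_mem_right _ fun i j => ?_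
  rw [Matrix.sub_apply]
  refine Ideal.sub_mem _ (mul_mem_aux ha hb i j) ?_
  rw [mul_comm J₁ J₂]
  exact mul_mem_aux hb ha i j

end

/-- Finitely many matrices congruent to `1` modulo the nilradical generate a nilpotent group. -/
theorem t_rk : Pool.Agent.Y58.HT.S_RK.{u} := by
  intro R _ T hT hnil
  classical
  set S : Set R := {x | ∃ t ∈ T, ∃ i j, x = (t : Matrix (Fin 2) (Fin 2) R) i j -
    (1 : Matrix (Fin 2) (Fin 2) R) i j} with hS
  have hSf : S.Finite := by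
    refine ((hT.prod (Set.finite_univ (α := Fin 2 × Fin 2))).image (fun p : GL (Fin 2) R ×
      (Fin 2 × Fin 2) => (p.1 : Matrix (Fin 2) (Fin 2) R) p.2.1 p.2.2 -
        (1 : Matrix (Fin 2) (Fin 2) R) p.2.1 p.2.2)).subset ?_
    rintro x ⟨t, ht, i, j, rfl⟩
    exact ⟨(t, (i, j)), ⟨ht, Set.mem_univ _⟩, rfl⟩
  set I : Ideal R := Ideal.span S with hI
  have hfg : I.FG := Submodule.fg_span hSf
  have hle : I ≤ nilradical R := by
    rw [hI, Ideal.span_le]
    rintro x ⟨t, ht, i, j, rfl⟩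
    exact hnil t ht i j
  obtain ⟨n, hn⟩ := (Ideal.FG.isNilpotent_iff_le_nilradical hfg).2 hle
  have hcl : Subgroup.closure T ≤ KJ (I ^ 1) := by
    rw [Subgroup.closure_le]
    intro t ht
    rw [SetLike.mem_coe, mem_KJ, pow_one]
    intro i j
    exact Ideal.subset_span ⟨t, ht, i, j, rfl⟩
  rw [Subgroup.nilpotent_iff_finite_descending_central_series]
  refine ⟨n, fun k => (KJ (I ^ (k + 1))).subgroupOf (Subgroup.closure T), ⟨?_, ?_⟩, ?_⟩
  · show (KJ (I ^ (0 + 1))).subgroupOf (Subgroup.closure T) = ⊤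
    rw [zero_add, Subgroup.subgroupOf_eq_top]
    exact hcl
  · intro x k hx g
    rw [Subgroup.mem_subgroupOf] at hx ⊢
    have h1 := comm_mem hx (hcl g.2)
    rw [← pow_add] at h1
    exact h1
  · rw [eq_bot_iff]
    intro g hg
    rw [Subgroup.mem_subgroupOf, pow_succ, hn, zero_mul, mem_KJ] at hg
    rw [Subgroup.mem_bot]
    apply Subtype.ext
    ext i j
    have h1 := hg i j
    rw [Matrix.sub_apply] at h1
    have h2 : ((g : GL (Fin 2) R) : Matrix (Fin 2) (Fin 2) R) i j -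
        (1 : Matrix (Fin 2) (Fin 2) R) i j = 0 := h1
    exact sub_eq_zero.1 h2

end Pool.Agent.Y340.HT
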